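import Mathlib
import Pool.Agent.H.MP_d886ff_an.A

namespace Pool.Agent.Results.MP_d886ff_an.NotDiscrete

open MeasureTheory Complex Set Pool.Agent.H.MP_d886ff_an

def PauliPair (f g : Lp ℂ 2 (volume : Measure ℝ)) : Prop :=
  LinearIndependent ℂ ![f, g] ∧ (∀ᵐ x : ℝ, ‖f x‖ = ‖g x‖) ∧
    ∀ ξ : ℝ, ‖∫ y : ℝ, cexp (-I * ξ * y) * f y‖ = ‖∫ y : ℝ, cexp (-I * ξ * y) * g y‖

noncomputable def ang (e : ℕ → Bool) (m : ℕ) : ℝ := if e m then 1 / 2 ^ m else -(1 / 2 ^ m)

lemma ang_abs (e : ℕ → Bool) (m : ℕ) : |ang e m| = 1 / 2 ^ m := by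
  unfold ang
  split_ifs
  · exact abs_of_nonneg (by positivity)
  · rw [abs_neg]; exact abs_of_nonneg (by positivity)

lemma ang_bd (e : ℕ → Bool) : Bd 1 (ang e) := fun m => (ang_abs e m).le

noncomputable def vec (e : ℕ → Bool) : Lp ℂ 2 (volume : Measure ℝ) := (F_mem (ang e)).toLp _

lemma pair {e e' : ℕ → Bool} (h : e ≠ e') : PauliPair (vec e) (vec e') := by
  obtain ⟨m, hm⟩ := Function.ne_iff.1 h
  have c1 := (F_mem (ang e)).coeFn_toLp
  have c2 := (F_mem (ang e')).coeFn_toLp
  refine ⟨LinearIndependent.pair_iff.2 fun α β hz => ?_, ?_, fun ξ => ?_⟩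
  · refine F_indep (ang_bd e) (ang_bd e') m ?_ α β ?_
    · have hab : |ang e m - ang e' m| = 2 * (1 / 2 ^ m) := by
        have hp : (0 : ℝ) < 1 / 2 ^ m := by positivity
        unfold ang
        cases h1 : e m <;> cases h2 : e' m <;> simp only [h1, h2] at hm ⊢
        · exact absurd rfl hm
        · simp only [Bool.false_eq_true, if_false, if_true]
          rw [abs_of_neg (by linarith)]; ring
        · simp only [Bool.false_eq_true, if_false, if_true]
          rw [abs_of_pos (by linarith)]; ring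
        · exact absurd rfl hm
      rw [← Real.cos_abs, hab]
      have hp : (0 : ℝ) < 1 / 2 ^ m := by positivity
      have hq : (1 : ℝ) / 2 ^ m ≤ 1 := by
        rw [div_le_one (by positivity)]; exact one_le_pow₀ (by norm_num)
      intro hc
      have := (Real.cos_eq_one_iff_of_lt_of_lt (by linarith [Real.pi_gt_three])
        (by linarith [Real.pi_gt_three])).1 hc
      linarith
    · filter_upwards [c1, c2, Lp.coeFn_add (α • vec e) (β • vec e'), Lp.coeFn_smul α (vec e),
        Lp.coeFn_smul β (vec e'), Lp.coeFn_zero ℂ 2 (volume : Measure ℝ)] with x h1 h2 h3 h4 h5 h6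
      rw [hz, h6, Pi.add_apply, h4, h5] at h3
      simp only [Pi.smul_apply, smul_eq_mul, vec, h1, h2, Pi.zero_apply] at h3
      exact h3.symm
  · filter_upwards [c1, c2] with x h1 h2
    simp only [vec, h1, h2]
    exact F_norm _ _ x
  · have e1 : ∀ t : ℕ → Bool, ∫ y : ℝ, cexp (-I * ξ * y) * vec t y = G (ang t) ξ := by
      intro t
      rw [← F_ft]
      apply integral_congr_ae
      filter_upwards [(F_mem (ang t)).coeFn_toLp] with x h1
      simp only [vec, h1]
    rw [e1, e1]
    exact G_eq ξ (ang_bd e) fun m => by rw [ang_abs, ang_abs]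

lemma vec_inj : Function.Injective vec := by
  intro e e' h
  by_contra hne
  have := (LinearIndependent.pair_iff.1 (pair hne).1 1 (-1) (by simp [h])).1
  simp at this

theorem result : ∃ P : Set (Lp ℂ 2 (volume : Measure ℝ)),
    ¬ P.Countable ∧ (∀ f ∈ P, ∀ᵐ x : ℝ, x ∉ Icc (0 : ℝ) 1 → f x = 0) ∧
    (∀ f ∈ P, ∀ g ∈ P, f ≠ g → PauliPair f g) ∧
    ∀ f ∈ P, ∀ ε > 0, ∃ g ∈ P, g ≠ f ∧ ‖g - f‖ < ε := by
  refine ⟨range vec, fun hc => ?_, ?_, ?_, ?_⟩
  · have h1 : Countable (ℕ → Bool) := by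
      have := hc.to_subtype
      exact (Set.rangeFactorization_injective.2 vec_inj).countable
    have h2 : Cardinal.mk (ℕ → Bool) = Cardinal.continuum := by
      rw [← Cardinal.power_def, Cardinal.mk_bool, Cardinal.mk_nat, Cardinal.two_power_aleph0]
    have h3 := Cardinal.mk_le_aleph0_iff.2 h1
    rw [h2] at h3
    exact absurd h3 (not_le.2 Cardinal.aleph0_lt_continuum)
  · rintro _ ⟨e, rfl⟩
    filter_upwards [(F_mem (ang e)).coeFn_toLp] with x h1 hx
    unfold vec
    rw [h1]
    exact indicator_of_notMem (fun h => hx (Ioc_subset_Icc_self h)) _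
  · rintro _ ⟨e, rfl⟩ _ ⟨e', rfl⟩ h
    exact pair fun he => h (by rw [he])
  · rintro _ ⟨e, rfl⟩ ε hε
    obtain ⟨k, hk⟩ := (((geo 1).summable.tendsto_atTop_zero).eventually
      (gt_mem_nhds (half_pos hε))).exists
    refine ⟨vec (Function.update e k (!e k)), ⟨_, rfl⟩, fun h => ?_, ?_⟩
    · have := congrFun (vec_inj h) k
      simp at this
    · have := F_dist (ang_bd (Function.update e k (!e k))) (ang_bd e) k fun m hm => by
        simp [ang, Function.update_of_ne hm]
      exact this.trans_lt (by linarith)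

end Pool.Agent.Results.MP_d886ff_an.NotDiscrete
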